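import Pool.Agent.Q186.FV.Pair
import Pool.Agent.Q186.RU.Main
import Pool.Agent.Q271.RC.FGTMain

/-!
The total spaces of the covers are of logarithmic general type.
-/

set_option autoImplicit false

namespace Pool.Agent.Q186.FV

open MvPolynomial FF Pool.Agent.W603.LV Pool.Agent.W603.PV Pool.Agent.W602.GT Pool.Agent.Q72.NA
open Pool.Agent.Q271.RC

/-- The cover has orbifold contact outside of the fibres over the finite set `S₁` of points of the
curve: for all extensions `L` of `F`, all points `v` of `Y` over `L` on which no `h i` vanishes and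
all places `z` of `L` which are not over `S₁` the functions `h i (v)` have orbifold contact. -/
def OrbRamifiedF (F : Type) [Field F] [Algebra ℂ F] (S₁ : Finset (Place ℂ F)) {N' n : ℕ}
    {K' : Type} [Field K'] [Algebra F K'] (m : ℕ) (Q : MvPolynomial (Fin (n + 1)) F)
    (b : Fin (N' + 1) → K') (h : Fin (n + 1) → MvPolynomial (Fin (N' + 1)) F) : Prop :=
  ∀ (L : Type) [Field L] [Algebra ℂ L] [Algebra F L] [IsScalarTower ℂ F L]
    (v : Fin (N' + 1) → L), IsPointF F b v → (∀ i, aeval v (h i) ≠ 0) →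
    ∀ z : Place ℂ L, (∀ q ∈ S₁, ¬ IsOver z q) → OrbContactF F m Q (fun i => aeval v (h i)) z

theorem coverQF_gt {N n d : ℕ} (F : Type) [Field F] [Algebra ℂ F] [IsFF ℂ F]
    (S₀ : Finset (Place ℂ F))
    (K : Type) [Field K] [Algebra ℂ K] [Algebra F K] [IsScalarTower ℂ F K] (a : Fin (N + 1) → K)
    (f : Fin (n + 1) → MvPolynomial (Fin (N + 1)) F) (e : ℕ) (Q : MvPolynomial (Fin (n + 1)) F)
    (hX : IsOrbPairF F S₀ d a f e Q) :
    ∃ (m0 : ℕ) (S₂ : Finset (Place ℂ F)), ∀ m, m0 ≤ m → ∀ (N' : ℕ) (K' : Type) [Field K']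
      [Algebra ℂ K'] [Algebra F K'] [IsScalarTower ℂ F K'] [Algebra K K'] [IsScalarTower F K K']
      (b : Fin (N' + 1) → K') (g : Fin (N + 1) → MvPolynomial (Fin (N' + 1)) F) (e' : ℕ),
      IsCoverF F a b g e' →
      ∀ S₁ : Finset (Place ℂ F), OrbRamifiedF F S₁ m Q b (fun i => bind₁ g (f i)) →
        LogGeneralType ℂ K' d fun P => (∃ q ∈ S₂, IsOver P q) ∨ ∃ q ∈ S₁, IsOver P q := by
  classical
  have hessF : Algebra.EssFiniteType ℂ F := IsFF.ess
  have hess : Algebra.EssFiniteType ℂ K := by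
    have h1 : Algebra.EssFiniteType F K := ess_of_adjoin hX.gen.2
    exact Algebra.EssFiniteType.comp ℂ F K
  -- functions on the base
  obtain ⟨t, ht⟩ := IsFF.exists_transcendental (k := ℂ) (K := F)
  let T0 : Finset F := insert t (S₀.image unif)
  have hT0 : ∀ c ∈ T0, c ≠ 0 := by
    intro c hc
    rcases Finset.mem_insert.1 hc with rfl | hc
    · rintro rfl
      exact ht isAlgebraic_zero
    · obtain ⟨v, -, rfl⟩ := Finset.mem_image.1 hc
      intro h0
      have := ord_unif v
      rw [h0, v.ord_zero] at this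
      exact zero_ne_one this
  have hT0t : t ∈ T0 := Finset.mem_insert_self _ _
  have hT0v : ∀ v ∈ S₀, unif v ∈ T0 := fun v hv =>
    Finset.mem_insert_of_mem (Finset.mem_image_of_mem _ hv)
  have hd : 1 ≤ d := by
    by_contra h
    have hd0 : d = 0 := by omega
    have h1 : Algebra.trdeg ℂ K = 0 := by rw [hX.lgt.1, hd0, Nat.cast_zero]
    rw [trdeg_eq_zero_iff] at h1
    have h2 : IsAlgebraic ℂ (algebraMap F K t) := h1.isAlgebraic _
    exact ht ((isAlgebraic_algebraMap_iff (algebraMap F K).injective).1 h2)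
  let ι : Type := Fin (n + 1) ⊕ T0
  obtain ⟨M, hM⟩ : ∃ M : ℕ, Fintype.card ι = M + 1 := by
    have h1 : 0 < Fintype.card ι := Fintype.card_pos_iff.2 ⟨Sum.inl 0⟩
    exact ⟨Fintype.card ι - 1, by omega⟩
  obtain ⟨eqv⟩ : Nonempty (Fin (M + 1) ≃ ι) := ⟨(Fintype.equivFinOfCardEq hM).symm⟩
  let x : ι → K := Sum.elim (fun i => aeval a (f i)) fun c => algebraMap F K c * aeval a (f 0)
  have hxl : ∀ i, x (Sum.inl i) = aeval a (f i) := fun i => rfl
  have hxr : ∀ c : T0, x (Sum.inr c) = algebraMap F K c * aeval a (f 0) := fun i => rfl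
  have hx0 : ∀ i, x i ≠ 0 := by
    rintro (i | c)
    · exact hX.ne i
    · exact mul_ne_zero ((map_ne_zero _).2 (hT0 c c.2)) (hX.ne 0)
  have hmem : ∀ i j : ι, x i / x j ∈ IntermediateField.adjoin ℂ
      (Set.range fun i => x (eqv i) / x (eqv 0)) := by
    intro i j
    have h1 : ∀ i, x i / x (eqv 0) ∈ IntermediateField.adjoin ℂ
        (Set.range fun i => x (eqv i) / x (eqv 0)) := fun i =>
      IntermediateField.subset_adjoin _ _ ⟨eqv.symm i, by
        show x (eqv (eqv.symm i)) / x (eqv 0) = x i / x (eqv 0)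
        rw [Equiv.apply_symm_apply]⟩
    have h2 : x i / x j = (x i / x (eqv 0)) / (x j / x (eqv 0)) := by
      rw [div_div_div_cancel_right₀ (hx0 _)]
    rw [h2]
    exact div_mem (h1 i) (h1 j)
  have halg : ∀ z : K, IsAlgebraic (IntermediateField.adjoin ℂ
      (Set.range fun i => x (eqv i) / x (eqv 0))) z := by
    refine alg_fam (fun i => aeval a (f i) / aeval a (f 0)) (fun z => hX.fin.isAlgebraic z) _
      (fun i => hmem (Sum.inl i) (Sum.inl 0)) t ht ?_
    have h1 := hmem (Sum.inr ⟨t, hT0t⟩) (Sum.inl 0)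
    rw [hxr, hxl, mul_div_cancel_right₀ _ (hX.ne 0)] at h1
    exact h1
  have hlgt : LogGeneralType ℂ K d (fun P => (∃ i, P.ord (x (eqv i)) ≠ P.ord (x (eqv 0))) ∨
      P.ord (aeval (fun i => aeval a (f i) / aeval a (f 0)) Q) = 1) := by
    refine lgt_mono ?_ hX.lgt
    rintro P (h | h)
    · left
      by_contra hcon
      push Not at hcon
      have hcon' : ∀ i j, P.ord (x i) = P.ord (x j) := by
        intro i j
        have h1 := hcon (eqv.symm i)
        have h2 := hcon (eqv.symm j)
        rw [Equiv.apply_symm_apply] at h1 h2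
        rw [h1, h2]
      rcases h with ⟨i, hi⟩ | ⟨v, hv, hP⟩
      · exact hi (hcon' (Sum.inl i) (Sum.inl 0))
      · have h1 := hcon' (Sum.inr ⟨unif v, hT0v v hv⟩) (Sum.inl 0)
        rw [hxr, hxl, P.ord_mul ((map_ne_zero _).2 (hT0 _ (hT0v v hv))) (hX.ne 0)] at h1
        have h2 := hP (unif v) (by rw [ord_unif]; exact one_pos)
        omega
    · exact Or.inr h
  obtain ⟨m0, hm0⟩ := Pool.Agent.Y220.OG.t_lgt K M d (fun i => x (eqv i))
    (aeval (fun i => aeval a (f i) / aeval a (f 0)) Q) hd (fun i => hx0 _) hX.neQ halg hlgt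
  let S₂ : Finset (Place ℂ F) := T0.biUnion fun c => (finite_support (k := ℂ) c).toFinset
  refine ⟨m0, S₂, fun m hm N' K' _ _ _ _ _ _ b g e' hY S₁ hram => ?_⟩
  have tow : IsScalarTower ℂ K K' := IsScalarTower.of_algebraMap_eq fun c => by
    rw [IsScalarTower.algebraMap_apply ℂ F K', IsScalarTower.algebraMap_apply ℂ F K,
      ← IsScalarTower.algebraMap_apply F K K']
  have hess' : Algebra.EssFiniteType ℂ K' := by
    have h2 : Algebra.EssFiniteType F K' := ess_of_adjoin hY.gen.2
    exact Algebra.EssFiniteType.comp ℂ F K'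
  have hYalg : Algebra.IsAlgebraic K K' := hY.alg
  obtain ⟨c, hc, hgc⟩ := hY.map
  have hval : ∀ i, aeval b (bind₁ g (f i)) = c ^ e * algebraMap K K' (aeval a (f i)) := fun i =>
    gen_compF a b g c hgc (hX.hom i)
  have hfi : ∀ i, algebraMap K K' (aeval a (f i)) ≠ 0 := fun i => (map_ne_zero _).2 (hX.ne i)
  have hne : ∀ i, aeval b (bind₁ g (f i)) ≠ 0 := fun i => by
    rw [hval]
    exact mul_ne_zero (pow_ne_zero _ hc) (hfi i)
  refine hm0 K' _ fun P hP => ?_
  rw [not_or] at hP
  -- the functions on the base are units at `P`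
  have hbase : ∀ c ∈ T0, P.ord (algebraMap F K' c) = 0 := by
    intro c hc
    by_contra hcon
    obtain ⟨r, v, hov⟩ := exists_over (K := F) P ⟨c, hcon⟩
    apply hP.1
    refine ⟨v, Finset.mem_biUnion.2 ⟨c, hc, ?_⟩, fun z hz => ?_⟩
    · have h1 : v.ord c ≠ 0 := by
        intro h0
        apply hcon
        rw [hov.2, h0, mul_zero]
      simpa using h1
    · rw [hov.2]
      have h5 : (0 : ℤ) < r := by exact_mod_cast hov.1
      positivity
  have hord : ∀ i, P.ord (aeval b (bind₁ g (f i))) =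
      P.ord (c ^ e) + P.ord (algebraMap K K' (aeval a (f i))) := by
    intro i
    rw [hval, P.ord_mul (pow_ne_zero _ hc) (hfi i)]
  have hxord : ∀ i : ι, ∃ j : Fin (n + 1),
      P.ord (algebraMap K K' (x i)) = P.ord (algebraMap K K' (aeval a (f j))) := by
    rintro (i | c)
    · exact ⟨i, rfl⟩
    · refine ⟨0, ?_⟩
      rw [hxr, map_mul, ← IsScalarTower.algebraMap_apply F K K',
        P.ord_mul ((map_ne_zero _).2 (hT0 c c.2)) (hfi 0), hbase c c.2, zero_add]
  rcases hram K' b (fun G D _ h => h) hne P (fun q hq hov => hP.2 ⟨q, hq, hov⟩) with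
    ⟨i, j, h⟩ | ⟨h, hQ⟩
  · right
    refine ⟨eqv.symm (Sum.inl j), eqv.symm (Sum.inl i), ?_⟩
    simp only [Equiv.apply_symm_apply, hxl]
    have h1 := hord i
    have h2 := hord j
    have h3 : (m : ℤ) ≤ P.ord (aeval b (bind₁ g (f i))) - P.ord (aeval b (bind₁ g (f j))) := h
    have h4 : (m0 : ℤ) ≤ m := by exact_mod_cast hm
    linarith
  · left
    have h1 : ∀ i j, P.ord (algebraMap K K' (aeval a (f i))) =
        P.ord (algebraMap K K' (aeval a (f j))) := by
      intro i j
      have h2 := h i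
      have h3 := h j
      simp only [hord] at h2 h3
      linarith
    refine ⟨fun i => ?_, ?_⟩
    · obtain ⟨j1, hj1⟩ := hxord (eqv i)
      obtain ⟨j2, hj2⟩ := hxord (eqv 0)
      rw [hj1, hj2]
      exact h1 _ _
    · have h2 : (fun i => aeval b (bind₁ g (f i)) / aeval b (bind₁ g (f 0))) =
          fun i => algebraMap K K' (aeval a (f i) / aeval a (f 0)) := by
        funext i
        rw [hval, hval, mul_div_mul_left _ _ (pow_ne_zero _ hc), map_div₀]
      simp only [h2] at hQ
      have h3 : aeval (fun i => algebraMap K K' (aeval a (f i) / aeval a (f 0))) Q =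
          algebraMap K K' (aeval (fun i => aeval a (f i) / aeval a (f 0)) Q) := by
        have e1 : ((IsScalarTower.toAlgHom F K K').comp
            (aeval fun i => aeval a (f i) / aeval a (f 0)) :
            MvPolynomial (Fin (n + 1)) F →ₐ[F] K') =
            aeval (fun i => algebraMap K K' (aeval a (f i) / aeval a (f 0))) := by
          apply MvPolynomial.algHom_ext
          intro i
          rw [AlgHom.comp_apply, aeval_X, aeval_X]
          rfl
        rw [← e1]
        rfl
      rw [h3] at hQ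
      exact hQ

end Pool.Agent.Q186.FV
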