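import Pool.Agent.Q186.FV.Core
import Pool.Agent.Q271.RC.FMain

/-!
The height inequality for pairs over function fields with a second branch divisor.
-/

set_option autoImplicit false

namespace Pool.Agent.Q186.FV

open MvPolynomial FF Pool.Agent.W603.LV Pool.Agent.W603.PV Pool.Agent.W602.GT Pool.Agent.Q72.NA
open Pool.Agent.Q271.RC

/-- At the place `z`, two of the orders of the functions `v 0, …, v n` differ by at least `m`, or all
these orders are equal and the order of `Q (1, v 1 / v 0, …, v n / v 0)` is not one. Here `Q` is a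
polynomial over the function field `F`. -/
def OrbContactF (F : Type) [Field F] {L : Type} [Field L] [Algebra ℂ L] [Algebra F L] {n : ℕ}
    (m : ℕ) (Q : MvPolynomial (Fin (n + 1)) F) (v : Fin (n + 1) → L) (z : Place ℂ L) : Prop :=
  (∃ i j, (m : ℤ) ≤ z.ord (v i) - z.ord (v j)) ∨
    ((∀ i, z.ord (v i) = z.ord (v 0)) ∧ z.ord (aeval (fun i => v i / v 0) Q) ≠ 1)

/-- A pair over the function field `F` of a curve `B`: an integral projective variety `X` over `F`
(generic point `a`, function field `K`), forms `f 0, …, f n` over `F` of degree `e` which do not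
vanish on `X`, whose ratios define a generically finite rational map from `X` to a closed subvariety
of projective `n`-space, and a polynomial `Q` over `F` with `Q (1, f 1 / f 0, …, f n / f 0) ≠ 0` on
`X`, such that the total space over `B - S₀` is of log general type, of dimension `d` over `ℂ`, for
the boundary which consists of the prime divisors (on all models) at which a ratio `f i / f 0` is not
a unit or at which the function `Q (1, f 1 / f 0, …, f n / f 0)` vanishes to the first order. -/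
structure IsOrbPairF (F : Type) [Field F] [Algebra ℂ F] (S₀ : Finset (Place ℂ F)) {N n : ℕ}
    {K : Type} [Field K] [Algebra ℂ K] [Algebra F K] (d : ℕ) (a : Fin (N + 1) → K)
    (f : Fin (n + 1) → MvPolynomial (Fin (N + 1)) F) (e : ℕ)
    (Q : MvPolynomial (Fin (n + 1)) F) : Prop where
  gen : IsGenericF F a
  hom : ∀ i, (f i).IsHomogeneous e
  ne : ∀ i, aeval a (f i) ≠ 0
  fin : Algebra.IsAlgebraic
    (IntermediateField.adjoin F (Set.range fun i => aeval a (f i) / aeval a (f 0))) K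
  neQ : aeval (fun i => aeval a (f i) / aeval a (f 0)) Q ≠ 0
  lgt : LogGeneralType ℂ K d fun P =>
    ((∃ i, P.ord (aeval a (f i)) ≠ P.ord (aeval a (f 0))) ∨ ∃ v ∈ S₀, IsOver P v) ∨
      P.ord (aeval (fun i => aeval a (f i) / aeval a (f 0)) Q) = 1

theorem OrbContactF.high {F : Type} [Field F] {L : Type} [Field L] [Algebra ℂ L] [Algebra F L]
    {n m : ℕ} {Q : MvPolynomial (Fin (n + 1)) F} {v : Fin (n + 1) → L} {z : Place ℂ L}
    (h : OrbContactF F m Q v z) : HighContact m v z := by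
  rcases h with h | h
  · exact Or.inr h
  · exact Or.inl h.1

section lift

variable {F : Type} [Field F] [Algebra ℂ F] {n : ℕ}

/-- the polynomial over `ℂ` in the units -/
noncomputable def q0 (T0 : Finset F) (Q : MvPolynomial (Fin (n + 1)) F)
    (hQ : ∀ α ∈ Q.support, Q.coeff α ∈ T0) : MvPolynomial (Fin (n + 1) ⊕ T0) ℂ :=
  ∑ α ∈ Q.support.attach, X (Sum.inr ⟨Q.coeff α, hQ α α.2⟩) *
    ∏ i, X (Sum.inl i) ^ (α : Fin (n + 1) →₀ ℕ) i

theorem q0_eval (T0 : Finset F) (Q : MvPolynomial (Fin (n + 1)) F)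
    (hQ : ∀ α ∈ Q.support, Q.coeff α ∈ T0) {E : Type} [Field E] [Algebra ℂ E] [Algebra F E]
    (z : Fin (n + 1) ⊕ T0 → E) (y : Fin (n + 1) → E) (h1 : ∀ i, z (Sum.inl i) = y i)
    (h2 : ∀ c : T0, z (Sum.inr c) = algebraMap F E c) : aeval z (q0 T0 Q hQ) = aeval y Q := by
  unfold q0
  rw [map_sum, aeval_def (f := y), eval₂_eq', ← Finset.sum_attach Q.support]
  refine Finset.sum_congr rfl fun α _ => ?_
  rw [map_mul, map_prod, aeval_X, h2]
  congr 1
  refine Finset.prod_congr rfl fun i _ => ?_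
  rw [map_pow, aeval_X, h1]

end lift

theorem pairQF {N n d : ℕ} (F : Type) [Field F] [Algebra ℂ F] [IsFF ℂ F] (S₀ : Finset (Place ℂ F))
    (K : Type) [Field K] [Algebra ℂ K] [Algebra F K] [IsScalarTower ℂ F K] (a : Fin (N + 1) → K)
    (f : Fin (n + 1) → MvPolynomial (Fin (N + 1)) F) (e : ℕ) (Q : MvPolynomial (Fin (n + 1)) F)
    (hX : IsOrbPairF F S₀ d a f e Q) :
    ∃ (G : MvPolynomial (Fin (N + 1)) F) (E A C : ℕ), G.IsHomogeneous E ∧ aeval a G ≠ 0 ∧
      ∀ (L : Type) [Field L] [Algebra ℂ L] [Algebra F L] [IsScalarTower ℂ F L] [Module.Finite F L]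
        (u : Fin (N + 1) → L), PtF (F := F) a u → aeval u G ≠ 0 → (∀ i, aeval u (f i) ≠ 0) ∧
        ∀ T : Finset (Place ℂ L),
          (∀ P : Place ℂ L, P ∉ T → (∀ i, P.ord (aeval u (f i)) = P.ord (aeval u (f 0))) ∧
            P.ord (aeval (fun i => aeval u (f i) / aeval u (f 0)) Q) ≠ 1) →
          pht ℂ u ≤ A * (canDeg ℂ L + T.card) + C * Module.finrank F L := by
  obtain ⟨⟨ha, hK⟩, hf, hf0, halg, hneQ, hlgt⟩ := hX
  classical
  -- functions on the base
  obtain ⟨t, ht⟩ := IsFF.exists_transcendental (k := ℂ) (K := F)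
  have huf : ∀ v : Place ℂ F, ∃ c : F, v.ord c = 1 := fun v => ⟨unif v, ord_unif v⟩
  choose uf huf using huf
  let T0 : Finset F := insert t (S₀.image uf) ∪ Q.support.image Q.coeff
  have hT0 : ∀ c ∈ T0, c ≠ 0 := by
    intro c hc
    rcases Finset.mem_union.1 hc with hc | hc
    · rcases Finset.mem_insert.1 hc with rfl | hc
      · rintro rfl
        exact ht isAlgebraic_zero
      · obtain ⟨v, -, rfl⟩ := Finset.mem_image.1 hc
        intro h0
        have := huf v
        rw [h0, v.ord_zero] at this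
        exact zero_ne_one this
    · obtain ⟨α, hα, rfl⟩ := Finset.mem_image.1 hc
      exact mem_support_iff.1 hα
  have hT0t : t ∈ T0 := Finset.mem_union_left _ (Finset.mem_insert_self _ _)
  have hT0v : ∀ v ∈ S₀, uf v ∈ T0 := fun v hv =>
    Finset.mem_union_left _ (Finset.mem_insert_of_mem (Finset.mem_image_of_mem _ hv))
  have hT0Q : ∀ α ∈ Q.support, Q.coeff α ∈ T0 := fun α hα =>
    Finset.mem_union_right _ (Finset.mem_image_of_mem _ hα)
  -- the units
  let ι : Type := Fin (n + 1) ⊕ T0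
  obtain ⟨eqv⟩ : Nonempty (Fin (Fintype.card ι) ≃ ι) := ⟨(Fintype.equivFin ι).symm⟩
  let x : ι → Kˣ := Sum.elim
    (fun i => Units.mk0 (aeval a (f i) / aeval a (f 0)) (div_ne_zero (hf0 i) (hf0 0)))
    (fun c => Units.mk0 (algebraMap F K c) ((map_ne_zero _).2 (hT0 c c.2)))
  have hxl : ∀ i, (x (Sum.inl i) : K) = aeval a (f i) / aeval a (f 0) := fun i => rfl
  have hxr : ∀ c : T0, (x (Sum.inr c) : K) = algebraMap F K c := fun i => rfl
  let Pn : ι → MvPolynomial (Fin (N + 1)) F := Sum.elim f fun c => C (c : F)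
  let Qn : ι → MvPolynomial (Fin (N + 1)) F := Sum.elim (fun _ => f 0) fun _ => 1
  let dg : ι → ℕ := Sum.elim (fun _ => e) fun _ => 0
  have hPn : ∀ i, (Pn i).IsHomogeneous (dg i) := by
    rintro (i | c)
    · exact hf i
    · exact isHomogeneous_C _ _
  have hQn : ∀ i, (Qn i).IsHomogeneous (dg i) := by
    rintro (i | c)
    · exact hf 0
    · exact isHomogeneous_one _ _
  have hQn0 : ∀ i, aeval a (Qn i) ≠ 0 := by
    rintro (i | c)
    · exact hf0 0
    · show aeval a (1 : MvPolynomial (Fin (N + 1)) F) ≠ 0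
      rw [map_one]
      exact one_ne_zero
  have hxPQ : ∀ i, (x i : K) * aeval a (Qn i) = aeval a (Pn i) := by
    rintro (i | c)
    · rw [hxl]
      exact div_mul_cancel₀ _ (hf0 0)
    · rw [hxr]
      show algebraMap F K c * aeval a (1 : MvPolynomial (Fin (N + 1)) F) = aeval a (C (c : F))
      rw [map_one, mul_one, aeval_C]
  have halg' : ∀ z : K, IsAlgebraic (IntermediateField.adjoin ℂ
      (Set.range fun i => (x (eqv i) : K))) z := by
    have hmem : ∀ i : ι, (x i : K) ∈ IntermediateField.adjoin ℂ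
        (Set.range fun i => (x (eqv i) : K)) := fun i =>
      IntermediateField.subset_adjoin _ _ ⟨eqv.symm i, by
        show (x (eqv (eqv.symm i)) : K) = x i
        rw [Equiv.apply_symm_apply]⟩
    exact alg_fam (fun i => aeval a (f i) / aeval a (f 0)) (fun z => halg.isAlgebraic z) _
      (fun i => hmem (Sum.inl i)) t ht (hmem (Sum.inr ⟨t, hT0t⟩))
  -- the polynomial
  obtain ⟨q, hq⟩ : ∃ q : MvPolynomial (Fin (Fintype.card ι)) ℂ,
      ∀ (E : Type) [Field E] [Algebra ℂ E] [Algebra F E] (z : ι → E) (y : Fin (n + 1) → E),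
        (∀ i, z (Sum.inl i) = y i) → (∀ c : T0, z (Sum.inr c) = algebraMap F E c) →
        aeval (fun i => z (eqv i)) q = aeval y Q := by
    refine ⟨rename eqv.symm (q0 T0 Q hT0Q), fun E _ _ _ z y h1 h2 => ?_⟩
    rw [aeval_rename, ← q0_eval T0 Q hT0Q z y h1 h2]
    congr 2
    funext i
    simp
  have hqK : aeval (fun i => (x (eqv i) : K)) q =
      aeval (fun i => aeval a (f i) / aeval a (f 0)) Q :=
    hq K (fun i => (x i : K)) _ hxl hxr
  have hlgt' : LogGeneralType ℂ K d (fun P => (∃ i, P.ord (x (eqv i) : K) ≠ 0) ∨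
      P.ord (aeval (fun i => (x (eqv i) : K)) q) = 1) := by
    refine lgt_mono ?_ hlgt
    rintro P ((⟨i, hi⟩ | ⟨v, hv, hP⟩) | hP)
    · refine Or.inl ⟨eqv.symm (Sum.inl i), ?_⟩
      rw [Equiv.apply_symm_apply, hxl, P.ord_div (hf0 i) (hf0 0), sub_ne_zero]
      exact hi
    · refine Or.inl ⟨eqv.symm (Sum.inr ⟨uf v, hT0v v hv⟩), ?_⟩
      rw [Equiv.apply_symm_apply, hxr]
      refine (hP (uf v) ?_).ne'
      rw [huf]
      exact one_pos
    · right
      rw [hqK]
      exact hP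
  have hess : Algebra.EssFiniteType ℂ K := by
    have h1 : Algebra.EssFiniteType F K := ess_of_adjoin hK
    have h2 : Algebra.EssFiniteType ℂ F := IsFF.ess
    exact Algebra.EssFiniteType.comp ℂ F K
  obtain ⟨G, E, A, hG, hGa, hmain⟩ := coreQF (n := Fintype.card ι) F K a ha
    (fun g => ratF_of_adjoin hK g) (fun i => x (eqv i)) (fun i => Pn (eqv i)) (fun i => Qn (eqv i))
    (fun i => dg (eqv i)) (fun i => hPn _) (fun i => hQn _) (fun i => hQn0 _) (fun i => hxPQ _)
    halg' q (by rw [hqK]; exact hneQ) hlgt'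
  have hA0 : (0 : ℤ) ≤ A := Int.natCast_nonneg _
  obtain ⟨H0, hH0⟩ : ∃ H0 : ℕ, (H0 : ℤ) = ∑ c ∈ T0, 2 * hgt ℂ c := by
    have h1 : (0 : ℤ) ≤ ∑ c ∈ T0, 2 * hgt ℂ c :=
      Finset.sum_nonneg fun c _ => mul_nonneg zero_le_two (hgt_nonneg _)
    exact ⟨(∑ c ∈ T0, 2 * hgt ℂ c).toNat, Int.toNat_of_nonneg h1⟩
  refine ⟨G, E, 3 * A, A * (3 * H0 + 6), hG, hGa, ?_⟩
  intro L _ _ _ _ _ u hu hGu
  have hL : IsFF ℂ L := isFF_of_finite (k := ℂ) (F := F)
  obtain ⟨hne, hbound⟩ := hmain L u hu hGu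
  refine ⟨fun i => ?_, fun T hT => ?_⟩
  · have h1 := (hne (eqv.symm (Sum.inl i))).1
    simp only [Equiv.apply_symm_apply] at h1
    exact h1
  have hqL : aeval (fun i => aeval u (Pn (eqv i)) / aeval u (Qn (eqv i))) q =
      aeval (fun i => aeval u (f i) / aeval u (f 0)) Q := by
    refine hq L (fun i => aeval u (Pn i) / aeval u (Qn i)) _ (fun i => rfl) fun c => ?_
    show aeval u (C (c : F)) / aeval u (1 : MvPolynomial (Fin (N + 1)) F) = _
    rw [aeval_C, map_one, div_one]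
  let T1 : Finset (Place ℂ L) :=
    T0.biUnion fun c => (finite_support (k := ℂ) (algebraMap F L c)).toFinset
  have hT1 : ∀ c ∈ T0, ∀ z : Place ℂ L, z ∉ T1 → z.ord (algebraMap F L c) = 0 := by
    intro c hc z hz
    by_contra hcon
    exact hz (Finset.mem_biUnion.2 ⟨c, hc, by simpa using hcon⟩)
  have hT1c : (T1.card : ℤ) ≤ H0 * Module.finrank F L := by
    have h1 : (T1.card : ℤ) ≤
        ∑ c ∈ T0, ((finite_support (k := ℂ) (algebraMap F L c)).toFinset.card : ℤ) := by
      exact_mod_cast Finset.card_biUnion_le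
    refine h1.trans ?_
    rw [hH0, Finset.sum_mul]
    refine Finset.sum_le_sum fun c _ => ?_
    refine (card_supp (algebraMap F L c) _ fun z hz => by simpa using hz).trans (le_of_eq ?_)
    rw [hgt_algebraMap c]
    ring
  have h1 := hbound (T ∪ T1) (fun z hz => by
    rw [Finset.notMem_union] at hz
    refine ⟨fun i => ?_, ?_⟩
    · obtain ⟨j, hj⟩ : ∃ j, eqv i = j := ⟨_, rfl⟩
      simp only [hj]
      rcases j with j | c
      · exact (hT z hz.1).1 j
      · show z.ord (aeval u (C (c : F))) = z.ord (aeval u (1 : MvPolynomial (Fin (N + 1)) F))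
        rw [aeval_C, map_one, z.ord_one]
        exact hT1 c c.2 z hz.2
    · rw [hqL]
      exact (hT z hz.1).2)
  refine h1.trans ?_
  have hcan : -2 ≤ canDeg ℂ L := by
    by_cases hc : canDeg ℂ L < 0
    · rw [canDeg_of_neg hc]
    · omega
  have hfr : (1 : ℤ) ≤ Module.finrank F L := by
    exact_mod_cast (Module.finrank_pos : 0 < Module.finrank F L)
  have hc1 : ((T ∪ T1).card : ℤ) ≤ T.card + T1.card := by
    exact_mod_cast Finset.card_union_le T T1
  have h2 : max (2 * canDeg ℂ L + 3 * ((T ∪ T1).card : ℤ)) 0 ≤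
      3 * (canDeg ℂ L + T.card) + (3 * H0 + 6) * Module.finrank F L := by
    have h3 : (0 : ℤ) ≤ H0 * Module.finrank F L :=
      mul_nonneg (Int.natCast_nonneg _) (Int.natCast_nonneg _)
    have h4 : (0 : ℤ) ≤ T.card := Int.natCast_nonneg _
    refine max_le ?_ ?_ <;> nlinarith
  calc (A : ℤ) * max (2 * canDeg ℂ L + 3 * ((T ∪ T1).card : ℤ)) 0
      ≤ A * (3 * (canDeg ℂ L + T.card) + (3 * H0 + 6) * Module.finrank F L) :=
        mul_le_mul_of_nonneg_left h2 hA0
    _ = ((3 * A : ℕ) : ℤ) * (canDeg ℂ L + T.card) +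
        ((A * (3 * H0 + 6) : ℕ) : ℤ) * Module.finrank F L := by
        push_cast
        ring

/-- contact places of high order need not be counted -/
theorem pairQF_contact {N n d : ℕ} (F : Type) [Field F] [Algebra ℂ F] [IsFF ℂ F]
    (S₀ : Finset (Place ℂ F))
    (K : Type) [Field K] [Algebra ℂ K] [Algebra F K] [IsScalarTower ℂ F K] (a : Fin (N + 1) → K)
    (f : Fin (n + 1) → MvPolynomial (Fin (N + 1)) F) (e : ℕ) (Q : MvPolynomial (Fin (n + 1)) F)
    (hX : IsOrbPairF F S₀ d a f e Q) :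
    ∃ (G : MvPolynomial (Fin (N + 1)) F) (E A C m0 : ℕ), G.IsHomogeneous E ∧ aeval a G ≠ 0 ∧
      ∀ m, m0 ≤ m → ∀ (L : Type) [Field L] [Algebra ℂ L] [Algebra F L] [IsScalarTower ℂ F L]
        [Module.Finite F L] (u : Fin (N + 1) → L), PtF (F := F) a u → aeval u G ≠ 0 →
        (∃ j, u j ≠ 0) → (∀ i, aeval u (f i) ≠ 0) ∧
        ∀ T : Finset (Place ℂ L),
          (∀ z : Place ℂ L, z ∉ T → OrbContactF F m Q (fun i => aeval u (f i)) z) →
          pht ℂ u ≤ A * (canDeg ℂ L + T.card) + C * Module.finrank F L := by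
  classical
  obtain ⟨G, E, A, C, hG, hGa, hmain⟩ := pairQF F S₀ K a f e Q hX
  obtain ⟨h0, hh0⟩ : ∃ h0 : ℕ, (h0 : ℤ) = coefH f := ⟨(coefH f).toNat,
    Int.toNat_of_nonneg (coefH_nonneg f)⟩
  refine ⟨G, E, 2 * A, 2 * (C + 2 * A * (n + 1) * h0), 4 * A * (n + 1) * e + 1, hG, hGa, ?_⟩
  intro m hm L _ _ _ _ _ u hu hGu hu0
  have hL : IsFF ℂ L := isFF_of_finite (k := ℂ) (F := F)
  obtain ⟨hf0, h1⟩ := hmain L u hu hGu
  refine ⟨hf0, fun T hT => ?_⟩
  have hm0 : 0 < m := by omega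
  have hpos : 0 ≤ pht ℂ u := by
    obtain ⟨j, hj⟩ := hu0
    refine le_trans ?_ (hgt_ratio_le u hj j)
    exact hgt_nonneg _
  have hr0 : (0 : ℤ) ≤ Module.finrank F L := Int.natCast_nonneg _
  have hA0 : (0 : ℤ) ≤ A := Int.natCast_nonneg _
  obtain ⟨Z, hZ, hZ2⟩ := card_contact (fun i => aeval u (f i)) hf0
    (e * pht ℂ u + h0 * Module.finrank F L)
    (fun i => (hgt_ratio_le (fun i => aeval u (f i)) (l := 0) (hf0 0) i).trans
      ((pht_formsF u f e hX.hom hu0 ⟨0, hf0 0⟩).trans (le_of_eq (by rw [hh0])))) m hm0 T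
    (fun z hz => (hT z hz).high)
  have h2 := h1 (T ∪ Z) (fun z hz => by
    rw [Finset.mem_union, not_or] at hz
    have h3 := hZ2 z hz.1 hz.2
    refine ⟨h3, ?_⟩
    rcases hT z hz.1 with ⟨i, j, h4⟩ | h4
    · exfalso
      rw [h3 i, h3 j, sub_self] at h4
      omega
    · exact h4.2)
  have h3 : ((T ∪ Z).card : ℤ) ≤ T.card + Z.card := by exact_mod_cast Finset.card_union_le T Z
  have h4 : pht ℂ u ≤ A * (canDeg ℂ L + T.card) + A * Z.card + C * Module.finrank F L := by
    refine h2.trans ?_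
    have := mul_le_mul_of_nonneg_left h3 hA0
    nlinarith
  have h5 : 2 * ((A : ℤ) * Z.card) ≤
      pht ℂ u + 4 * A * (n + 1) * h0 * Module.finrank F L := by
    have h6 : (m : ℤ) * (2 * (A * Z.card)) ≤
        m * (pht ℂ u + 4 * A * (n + 1) * h0 * Module.finrank F L) := by
      have h7 := mul_le_mul_of_nonneg_left hZ (show (0 : ℤ) ≤ 2 * A by positivity)
      have h8 : ((4 * A * (n + 1) * e : ℕ) : ℤ) ≤ m := by
        have : 4 * A * (n + 1) * e ≤ m := by omega
        exact_mod_cast this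
      have h9 : (1 : ℤ) ≤ m := by exact_mod_cast hm0
      have h10 : (0 : ℤ) ≤ 4 * A * (n + 1) * h0 * Module.finrank F L := by positivity
      calc (m : ℤ) * (2 * (A * Z.card)) = 2 * A * (m * Z.card) := by ring
        _ ≤ 2 * A * (2 * (n + 1) * (e * pht ℂ u + h0 * Module.finrank F L)) := h7
        _ = ((4 * A * (n + 1) * e : ℕ) : ℤ) * pht ℂ u +
            1 * (4 * A * (n + 1) * h0 * Module.finrank F L) := by push_cast; ring
        _ ≤ m * pht ℂ u + m * (4 * A * (n + 1) * h0 * Module.finrank F L) :=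
            add_le_add (mul_le_mul_of_nonneg_right h8 hpos) (mul_le_mul_of_nonneg_right h9 h10)
        _ = _ := by ring
    exact le_of_mul_le_mul_left h6 (by exact_mod_cast hm0)
  push_cast
  nlinarith

theorem coverQF {N n d : ℕ} (F : Type) [Field F] [Algebra ℂ F] [IsFF ℂ F]
    (S₀ : Finset (Place ℂ F))
    (K : Type) [Field K] [Algebra ℂ K] [Algebra F K] [IsScalarTower ℂ F K] (a : Fin (N + 1) → K)
    (f : Fin (n + 1) → MvPolynomial (Fin (N + 1)) F) (e : ℕ) (Q : MvPolynomial (Fin (n + 1)) F)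
    (hX : IsOrbPairF F S₀ d a f e Q) :
    ∃ m0 : ℕ, ∀ m, m0 ≤ m → ∀ (N' : ℕ) (K' : Type) [Field K'] [Algebra ℂ K'] [Algebra F K']
      [IsScalarTower ℂ F K'] [Algebra K K'] [IsScalarTower F K K'] (b : Fin (N' + 1) → K')
      (g : Fin (N + 1) → MvPolynomial (Fin (N' + 1)) F) (e' : ℕ), IsCoverF F a b g e' →
      ∃ (G : MvPolynomial (Fin (N' + 1)) F) (D A C : ℕ), G.IsHomogeneous D ∧ aeval b G ≠ 0 ∧
        ∀ (L : Type) [Field L] [Algebra ℂ L] [Algebra F L] [IsScalarTower ℂ F L]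
          [Module.Finite F L] (v : Fin (N' + 1) → L), PtF (F := F) b v → aeval v G ≠ 0 →
          (∀ i, aeval v (bind₁ g (f i)) ≠ 0) ∧
          ∀ T : Finset (Place ℂ L),
            (∀ z : Place ℂ L, z ∉ T → OrbContactF F m Q (fun i => aeval v (bind₁ g (f i))) z) →
            pht ℂ v ≤ A * (canDeg ℂ L + T.card) + C * Module.finrank F L := by
  obtain ⟨B, E, A, C, m0, hB, hBa, hmain⟩ := pairQF_contact F S₀ K a f e Q hX
  refine ⟨m0, fun m hm N' K' _ _ _ _ _ _ b g e' hY => ?_⟩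
  obtain ⟨c, hc, hgc⟩ := hY.map
  obtain ⟨H, E', C1, C2, hH, hHb, hup⟩ := height_upF (F := F) a b g e' hY.hom c hgc hc hX.gen.1
    hY.gen.1 (fun f => ratF_of_adjoin hY.gen.2 f) hX.gen.2 hY.alg
  refine ⟨H * bind₁ g B, E' + e' * E, C1 * A, C1 * C + C2, hH.mul (hB.aeval g hY.hom), ?_, ?_⟩
  · rw [map_mul, gen_compF a b g c hgc hB]
    exact mul_ne_zero hHb (mul_ne_zero (pow_ne_zero _ hc) ((map_ne_zero _).2 hBa))
  intro L _ _ _ _ _ v hv hGv
  have hL : IsFF ℂ L := isFF_of_finite (k := ℂ) (F := F)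
  rw [map_mul] at hGv
  obtain ⟨hv0, hu0, hh⟩ := hup L v hv (left_ne_zero_of_mul hGv)
  have hBu : aeval (fun i => aeval v (g i)) B ≠ 0 := by
    rw [← aeval_bind₁]
    exact right_ne_zero_of_mul hGv
  obtain ⟨h1, h2⟩ := hmain m hm L (fun i => aeval v (g i))
    (pt_compF a b g e' hY.hom c hgc v hv) hBu hu0
  refine ⟨fun i => by rw [aeval_bind₁]; exact h1 i, fun T hT => ?_⟩
  have h3 := h2 T (fun z hz => by
    have := hT z hz
    simp only [aeval_bind₁] at this
    exact this)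
  refine (hh.trans (add_le_add_left (mul_le_mul_of_nonneg_left h3
    (Int.natCast_nonneg _)) _)).trans (le_of_eq ?_)
  push_cast
  ring

end Pool.Agent.Q186.FV
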